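import Pool.Agent.Helper95.RP.St

set_option autoImplicit false

/-! Module FL of project RP (MP_e0fa86_co): integral flow from FA. -/

namespace Pool.Agent.Helper62.RP

open Pool.Agent.Helper95.RP Finset
open scoped Classical

noncomputable section

theorem sum_split {N : ℕ} (S : Finset (Cp N)) (F : Cp N → ℤ) :
    ∑ x ∈ S, F x = ∑ u : Fin N, ((if (u, false) ∈ S then 1 else 0) * F (u, false) +
      (if (u, true) ∈ S then 1 else 0) * F (u, true)) := by
  have h1 : ∑ x ∈ S, F x = ∑ x : Cp N, (if x ∈ S then 1 else 0) * F x := by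
    simp only [ite_mul, one_mul, zero_mul]
    rw [← Finset.sum_filter]
    congr 1
    ext x
    simp
  rw [h1, Fintype.sum_prod_type]
  refine Finset.sum_congr rfl fun u _ => ?_
  rw [Fintype.sum_bool]
  ring

theorem sum_need {N : ℕ} (c : Cp N → ℤ) (g : Fin N × Fin N → ℤ) (S : Finset (Cp N)) :
    ∑ x ∈ S, need c g x = ∑ x ∈ S, sg c x - ∑ p : Fin N × Fin N, g p *
      ((if (p.1, false) ∈ S then 1 else 0) - (if (p.2, true) ∈ S then 1 else 0)) := by
  rw [sum_split, sum_split, Fintype.sum_prod_type]
  have e1 : ∀ u : Fin N, need c g (u, false) = c (u, false) - ∑ v : Fin N, g (u, v) := by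
    intro u
    simp [need]
  have e2 : ∀ u : Fin N, need c g (u, true) = - c (u, true) + ∑ v : Fin N, g (v, u) := by
    intro u
    simp [need]
  have e3 : ∀ u : Fin N, sg c (u, false) = c (u, false) := by
    intro u
    simp [sg]
  have e4 : ∀ u : Fin N, sg c (u, true) = - c (u, true) := by
    intro u
    simp [sg]
  simp only [e1, e2, e3, e4]
  set a : Fin N → ℤ := fun u => if (u, false) ∈ S then 1 else 0 with ha
  set b : Fin N → ℤ := fun u => if (u, true) ∈ S then 1 else 0 with hb
  have h1 : ∑ x : Fin N, ∑ y : Fin N, g (x, y) * (a x - b y) =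
      ∑ x : Fin N, (a x * ∑ v : Fin N, g (x, v)) - ∑ x : Fin N, (b x * ∑ v : Fin N, g (v, x)) := by
    have h2 : ∑ x : Fin N, (b x * ∑ v : Fin N, g (v, x)) =
        ∑ x : Fin N, ∑ y : Fin N, g (x, y) * b y := by
      rw [Finset.sum_comm]
      refine Finset.sum_congr rfl fun x _ => ?_
      rw [Finset.mul_sum]
      exact Finset.sum_congr rfl fun y _ => mul_comm _ _
    rw [h2, ← Finset.sum_sub_distrib]
    refine Finset.sum_congr rfl fun x _ => ?_
    rw [Finset.mul_sum, ← Finset.sum_sub_distrib]
    exact Finset.sum_congr rfl fun y _ => by ring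
  show ∑ u : Fin N, (a u * (c (u, false) - ∑ v : Fin N, g (u, v)) +
      b u * (- c (u, true) + ∑ v : Fin N, g (v, u))) =
    ∑ u : Fin N, (a u * c (u, false) + b u * (- c (u, true))) -
      ∑ x : Fin N, ∑ y : Fin N, g (x, y) * (a x - b y)
  rw [h1, ← Finset.sum_sub_distrib, ← Finset.sum_sub_distrib]
  exact Finset.sum_congr rfl fun u _ => by ring

theorem cut_cast {N : ℕ} (E : Finset (Fin N × Fin N)) (S : Finset (Cp N)) :
    (cut E S : ℤ) = ∑ p : Fin N × Fin N,
      if p ∈ E ∧ ¬ ((p.1, false) ∈ S ↔ (p.2, true) ∈ S) then (1 : ℤ) else 0 := by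
  unfold cut
  rw [Finset.card_filter]
  push_cast
  rw [← Finset.sum_filter, ← Finset.sum_filter]
  congr 1
  ext p
  simp

theorem hFL : FL := by
  intro hFA N E c k hS0
  obtain ⟨g, hCap, hpath⟩ := hFA N E c k
  refine ⟨g, hCap, ?_⟩
  set S : Finset (Cp N) := univ.filter
    (fun y => ∃ x, 0 < need c g x ∧ Relation.ReflTransGen (Stp E k g) x y) with hS
  have hpos : ∀ x, 0 < need c g x → x ∈ S := fun x hx => by
    rw [hS, mem_filter]
    exact ⟨mem_univ _, x, hx, Relation.ReflTransGen.refl⟩
  have hnn : ∀ y ∈ S, 0 ≤ need c g y := fun y hy => by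
    rw [hS, mem_filter] at hy
    obtain ⟨-, x, hx, hxy⟩ := hy
    exact not_lt.1 (hpath x y hxy hx)
  have hstep : ∀ x y, x ∈ S → Stp E k g x y → y ∈ S := fun x y hx hxy => by
    rw [hS, mem_filter] at hx ⊢
    obtain ⟨-, z, hz, hzx⟩ := hx
    exact ⟨mem_univ _, z, hz, hzx.tail hxy⟩
  -- the cut
  have hcut : ∑ p : Fin N × Fin N, g p *
      ((if (p.1, false) ∈ S then 1 else 0) - (if (p.2, true) ∈ S then 1 else 0)) =
      (k : ℤ) * (cut E S : ℤ) := by
    rw [cut_cast, Finset.mul_sum]
    refine Finset.sum_congr rfl fun p _ => ?_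
    by_cases hp : p ∈ E
    · have hb := abs_le.1 (hCap.2 p)
      by_cases h1 : (p.1, false) ∈ S <;> by_cases h2 : (p.2, true) ∈ S
      · simp [h1, h2]
      · have h3 : g p = k := by
          by_contra h4
          refine h2 (hstep (p.1, false) (p.2, true) h1 (Or.inl ⟨rfl, rfl, hp, ?_⟩))
          exact lt_of_le_of_ne hb.2 h4
        simp [h1, h2, hp, h3]
      · have h3 : g p = -k := by
          by_contra h4
          refine h1 (hstep (p.2, true) (p.1, false) h2 (Or.inr ⟨rfl, rfl, hp, ?_⟩))
          exact lt_of_le_of_ne hb.1 (fun h5 => h4 h5.symm)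
        simp [h1, h2, hp, h3]
      · simp [h1, h2]
    · rw [hCap.1 p hp]
      simp [hp]
  have hsum : ∑ x ∈ S, need c g x ≤ 0 := by
    rw [sum_need, hcut]
    have := (abs_le.1 (hS0 S)).2
    linarith
  have hnopos : ∀ x, need c g x ≤ 0 := by
    intro x
    by_contra hx
    push Not at hx
    have h1 : need c g x ≤ ∑ x ∈ S, need c g x :=
      Finset.single_le_sum (f := fun x => need c g x) hnn (hpos x hx)
    linarith
  have hall : ∑ x : Cp N, need c g x = 0 := by
    rw [sum_need]
    have h1 : cut E (univ : Finset (Cp N)) = 0 := by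
      unfold cut
      simp
    have h2 : ∑ x : Cp N, sg c x = 0 := by
      have := hS0 univ
      rw [h1] at this
      simp only [Nat.cast_zero, mul_zero] at this
      exact abs_nonpos_iff.1 this
    rw [h2]
    simp
  have hz : ∀ x, need c g x = 0 := by
    intro x
    have h1 : ∑ x : Cp N, (- need c g x) = 0 := by
      rw [Finset.sum_neg_distrib, hall, neg_zero]
    have h2 := (Finset.sum_eq_zero_iff_of_nonneg
      (fun x _ => by have := hnopos x; linarith : ∀ x ∈ (univ : Finset (Cp N)), 0 ≤ - need c g x)).1 h1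
      x (mem_univ x)
    linarith
  constructor
  · intro u
    have := hz (u, false)
    simp only [need] at this
    simp at this
    linarith
  · intro v
    have := hz (v, true)
    simp only [need] at this
    simp at this
    linarith

end

end Pool.Agent.Helper62.RP
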