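import Pool.Agent.Helper87.RP.Defs

/-!
# MP_4e034d_co : the algebraic form of the Tucker lemma (module U1)
-/

namespace Pool.Agent.Helper87.RP

open Finset

namespace U1

/-- The opposite label. -/
def fl {n : ℕ} : Fin n × Bool ≃ Fin n × Bool := (Equiv.refl _).prodCongr Equiv.boolNot

theorem fl_apply {n : ℕ} (a : Fin n × Bool) : fl a = (a.1, !a.2) := rfl

/-- Chains of sets of labels. -/
abbrev T (n : ℕ) : Type := Finset (Fin n × Bool) →₀ ZMod 2

variable {n : ℕ}

theorem add_self (t : T n) : t + t = 0 := by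
  ext s
  rw [Finsupp.add_apply, Finsupp.zero_apply]
  exact CharTwo.add_self_eq_zero _

/-- Adding a label. -/
noncomputable def w (a : Fin n × Bool) : T n →ₗ[ZMod 2] T n :=
  Finsupp.linearCombination (ZMod 2)
    (fun s => if a ∈ s then 0 else Finsupp.single (insert a s) 1)

/-- The boundary. -/
noncomputable def del : T n →ₗ[ZMod 2] T n :=
  Finsupp.linearCombination (ZMod 2) (fun s => ∑ a ∈ s, Finsupp.single (s.erase a) 1)

/-- The antipodal map. -/
noncomputable def fT : T n →ₗ[ZMod 2] T n :=
  Finsupp.lmapDomain (ZMod 2) (ZMod 2) (Finset.map fl.toEmbedding)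

theorem w_single (a : Fin n × Bool) (s : Finset (Fin n × Bool)) :
    w a (Finsupp.single s 1) = if a ∈ s then 0 else Finsupp.single (insert a s) 1 := by
  unfold w
  rw [Finsupp.linearCombination_single, one_smul]

theorem del_single (s : Finset (Fin n × Bool)) :
    del (Finsupp.single s 1) = ∑ a ∈ s, Finsupp.single (s.erase a) (1 : ZMod 2) := by
  unfold del
  rw [Finsupp.linearCombination_single, one_smul]

theorem fT_single (s : Finset (Fin n × Bool)) (c : ZMod 2) :
    fT (Finsupp.single s c) = Finsupp.single (s.map fl.toEmbedding) c := by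
  unfold fT
  rw [Finsupp.lmapDomain_apply, Finsupp.mapDomain_single]

theorem lin_ext {N : Type*} [AddCommMonoid N] [Module (ZMod 2) N] {ι : Type*}
    (f g : (ι →₀ ZMod 2) →ₗ[ZMod 2] N)
    (h : ∀ s, f (Finsupp.single s 1) = g (Finsupp.single s 1)) (t : ι →₀ ZMod 2) : f t = g t := by
  have : f = g := by
    apply Finsupp.lhom_ext'
    intro s
    apply LinearMap.ext_ring
    exact h s
  rw [this]

theorem del_w (a : Fin n × Bool) (t : T n) : del (w a t) = t + w a (del t) := by
  refine lin_ext (del ∘ₗ w a) (LinearMap.id + w a ∘ₗ del) (fun s => ?_) t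
  rw [LinearMap.comp_apply, LinearMap.add_apply, LinearMap.comp_apply, LinearMap.id_apply,
    w_single, del_single, map_sum]
  by_cases ha : a ∈ s
  · rw [if_pos ha, map_zero, Finset.sum_eq_single a]
    · rw [w_single, if_neg (Finset.notMem_erase a s), Finset.insert_erase ha, add_self]
    · intro b _ hb
      rw [w_single, if_pos (Finset.mem_erase.2 ⟨Ne.symm hb, ha⟩)]
    · intro h
      exact absurd ha h
  · rw [if_neg ha, del_single, Finset.sum_insert ha, Finset.erase_insert ha]
    congr 1
    refine Finset.sum_congr rfl fun b hb => ?_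
    have hab : a ≠ b := fun h => ha (h ▸ hb)
    rw [w_single, if_neg (fun h => ha (Finset.mem_of_mem_erase h)),
      Finset.erase_insert_of_ne hab]

theorem del_del (t : T n) : del (del t) = 0 := by
  refine lin_ext (del ∘ₗ del) 0 (fun s => ?_) t
  rw [LinearMap.comp_apply, LinearMap.zero_apply]
  induction s using Finset.induction_on with
  | empty => rw [del_single, Finset.sum_empty, map_zero]
  | insert a s ha ih =>
    have h1 : (Finsupp.single (insert a s) 1 : T n) = w a (Finsupp.single s 1) := by
      rw [w_single, if_neg ha]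
    rw [h1, del_w, map_add, del_w, ih, map_zero, add_zero, add_self]

theorem del_fT (t : T n) : del (fT t) = fT (del t) := by
  refine lin_ext (del ∘ₗ fT) (fT ∘ₗ del) (fun s => ?_) t
  rw [LinearMap.comp_apply, LinearMap.comp_apply, fT_single, del_single, del_single, map_sum,
    Finset.sum_map]
  refine Finset.sum_congr rfl fun a _ => ?_
  rw [fT_single, Finset.map_erase]

theorem w_fT (a : Fin n × Bool) (t : T n) : w (fl a) (fT t) = fT (w a t) := by
  refine lin_ext (w (fl a) ∘ₗ fT) (fT ∘ₗ w a) (fun s => ?_) t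
  rw [LinearMap.comp_apply, LinearMap.comp_apply, fT_single, w_single, w_single]
  have h : fl a ∈ s.map fl.toEmbedding ↔ a ∈ s := by
    rw [Finset.mem_map_equiv, Equiv.symm_apply_apply]
  by_cases ha : a ∈ s
  · rw [if_pos ha, if_pos (h.2 ha), map_zero]
  · rw [if_neg ha, if_neg (fun hh => ha (h.1 hh)), fT_single, Finset.map_insert]
    rfl

theorem fT_apply (t : T n) (s : Finset (Fin n × Bool)) :
    fT t s = t (s.map fl.toEmbedding) := by
  have hinv : ∀ s : Finset (Fin n × Bool), (s.map fl.toEmbedding).map fl.toEmbedding = s := by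
    intro s
    ext a
    rw [Finset.mem_map_equiv, Finset.mem_map_equiv]
    have : fl.symm (fl.symm a) = a := by
      rcases a with ⟨i, b⟩
      cases b <;> rfl
    rw [this]
  have hinj : Function.Injective (Finset.map (fl (n := n)).toEmbedding) :=
    Finset.map_injective _
  have h1 : fT t ((s.map fl.toEmbedding).map fl.toEmbedding) = t (s.map fl.toEmbedding) := by
    unfold fT
    rw [Finsupp.lmapDomain_apply, Finsupp.mapDomain_apply hinj]
  rwa [hinv] at h1

/-- Sets of labels of cardinality `j + 1` without opposite labels. -/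
def Cf (j : ℕ) : Set (Finset (Fin n × Bool)) := {s | s.card = j + 1 ∧ ∀ a ∈ s, fl a ∉ s}

/-- Chains supported on such sets. -/
noncomputable def G (n j : ℕ) : Submodule (ZMod 2) (T n) :=
  Finsupp.supported (ZMod 2) (ZMod 2) (Cf j)

theorem single_mem {j : ℕ} {s : Finset (Fin n × Bool)} (h : s ∈ Cf j) :
    (Finsupp.single s 1 : T n) ∈ G n j := Finsupp.single_mem_supported _ _ h

theorem del_mem {j : ℕ} {t : T n} (h : t ∈ G n (j + 1)) : del t ∈ G n j := by
  have h1 : G n (j + 1) ≤ (G n j).comap del := by
    unfold G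
    rw [Finsupp.supported_eq_span_single, Submodule.span_le]
    rintro _ ⟨s, hs, rfl⟩
    show del (Finsupp.single s 1) ∈ Finsupp.supported (ZMod 2) (ZMod 2) (Cf j)
    rw [del_single]
    refine Submodule.sum_mem _ fun a ha => ?_
    refine Finsupp.single_mem_supported _ _ ⟨?_, ?_⟩
    · rw [Finset.card_erase_of_mem ha, hs.1]; rfl
    · intro b hb hfb
      exact hs.2 b (Finset.mem_of_mem_erase hb) (Finset.mem_of_mem_erase hfb)
  exact h1 h

/-- The element of smallest first coordinate has second coordinate `true`. -/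
def Pz (s : Finset (Fin n × Bool)) : Prop :=
  ∃ i, (i, true) ∈ s ∧ ∀ b ∈ s, i ≤ b.1

theorem Pz_flip {j : ℕ} {s : Finset (Fin n × Bool)} (hs : s ∈ Cf j) :
    Pz (s.map fl.toEmbedding) ↔ ¬ Pz s := by
  have hne : s.Nonempty := Finset.card_pos.1 (by rw [hs.1]; omega)
  obtain ⟨⟨m, b⟩, hm, hmin⟩ := Finset.exists_min_image s (fun a => a.1) hne
  have hfl : ∀ a, a ∈ s.map fl.toEmbedding ↔ fl a ∈ s := by
    intro a
    rw [Finset.mem_map_equiv]
    have : fl.symm a = fl a := by
      rcases a with ⟨i, b⟩
      cases b <;> rfl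
    rw [this]
  have h1 : Pz s ↔ b = true := by
    constructor
    · rintro ⟨i, hi, hi'⟩
      have him : i = m := le_antisymm (hi' _ hm) (hmin _ hi)
      subst him
      by_contra hb
      have hb' : b = false := by simpa using hb
      subst hb'
      exact hs.2 _ hm hi
    · rintro rfl
      exact ⟨m, hm, fun b hb => hmin b hb⟩
  have h2 : Pz (s.map fl.toEmbedding) ↔ b = false := by
    constructor
    · rintro ⟨i, hi, hi'⟩
      rw [hfl] at hi
      have hmm : fl (m, b) ∈ s.map fl.toEmbedding := by
        rw [hfl]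
        have : fl (fl (m, b)) = (m, b) := by cases b <;> rfl
        rw [this]
        exact hm
      have hle := hi' _ hmm
      have hge := hmin _ hi
      have hik : i = m := le_antisymm hle hge
      subst hik
      by_contra hb
      have hb' : b = true := by simpa using hb
      subst hb'
      exact hs.2 _ hm hi
    · rintro rfl
      refine ⟨m, (hfl _).2 hm, fun c hc => ?_⟩
      rw [hfl] at hc
      exact hmin (fl c) hc
  rw [h1, h2]
  cases b <;> simp

open Classical in
theorem split {j : ℕ} {x : T n} (hx : x ∈ G n j) (h : x = fT x) :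
    ∃ e ∈ G n j, x = e + fT e := by
  refine ⟨x.filter Pz, ?_, ?_⟩
  · unfold G at hx ⊢
    rw [Finsupp.mem_supported] at hx ⊢
    intro s hs
    apply hx
    have hs' : s ∈ (x.filter Pz).support := hs
    rw [Finsupp.support_filter, Finset.mem_filter] at hs'
    exact hs'.1
  · ext s
    rw [Finsupp.add_apply, fT_apply, Finsupp.filter_apply, Finsupp.filter_apply]
    have hxs : x (s.map fl.toEmbedding) = x s := by
      conv_rhs => rw [h, fT_apply]
    by_cases h0 : x s = 0
    · rw [hxs, h0]
      simp
    · have hs : s ∈ Cf j := by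
        unfold G at hx
        rw [Finsupp.mem_supported] at hx
        exact hx (Finsupp.mem_support_iff.2 h0)
      have h1 := Pz_flip hs
      by_cases h2 : Pz s
      · rw [if_pos h2, if_neg (fun h3 => h1.1 h3 h2), add_zero]
      · rw [if_neg h2, if_pos (h1.2 h2), zero_add, hxs]

variable {E : Type}

/-- The image of a list. -/
noncomputable def ph (lab : E → Fin n × Bool) : List E → T n
  | [] => Finsupp.single ∅ 1
  | x :: l => w (lab x) (ph lab l)

/-- The chain map. -/
noncomputable def Ph (lab : E → Fin n × Bool) : Ch E →ₗ[ZMod 2] T n :=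
  Finsupp.linearCombination (ZMod 2) (ph lab)

theorem Ph_single (lab : E → Fin n × Bool) (l : List E) :
    Ph lab (Finsupp.single l 1) = ph lab l := by
  unfold Ph
  rw [Finsupp.linearCombination_single, one_smul]

theorem Ph_cons (lab : E → Fin n × Bool) (x : E) (c : Ch E) :
    Ph lab (Finsupp.mapDomain (List.cons x) c) = w (lab x) (Ph lab c) := by
  refine lin_ext (Ph lab ∘ₗ Finsupp.lmapDomain (ZMod 2) (ZMod 2) (List.cons x))
    (w (lab x) ∘ₗ Ph lab) (fun l => ?_) c
  rw [LinearMap.comp_apply, LinearMap.comp_apply, Finsupp.lmapDomain_apply,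
    Finsupp.mapDomain_single, Ph_single, Ph_single]
  rfl

theorem Ph_bd (lab : E → Fin n × Bool) (l : List E) : Ph lab (bd l) = del (ph lab l) := by
  induction l with
  | nil =>
    show Ph lab 0 = del (Finsupp.single ∅ 1)
    rw [map_zero, del_single, Finset.sum_empty]
  | cons x l ih =>
    show Ph lab (Finsupp.single l 1 + Finsupp.mapDomain (List.cons x) (bd l)) =
      del (w (lab x) (ph lab l))
    rw [map_add, Ph_single, Ph_cons, ih, del_w]

theorem Ph_dd (lab : E → Fin n × Bool) (c : Ch E) : Ph lab (dd c) = del (Ph lab c) := by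
  refine lin_ext (Ph lab ∘ₗ dd) (del ∘ₗ Ph lab) (fun l => ?_) c
  rw [LinearMap.comp_apply, LinearMap.comp_apply, Ph_single]
  unfold dd
  rw [Finsupp.linearCombination_single, one_smul, Ph_bd]

theorem ph_neg [InvolutiveNeg E] (lab : E → Fin n × Bool) (l : List E)
    (h : ∀ x ∈ l, lab (-x) = fl (lab x)) : ph lab (l.map Neg.neg) = fT (ph lab l) := by
  induction l with
  | nil =>
    show (Finsupp.single ∅ 1 : T n) = fT (Finsupp.single ∅ 1)
    rw [fT_single, Finset.map_empty]
  | cons x l ih =>
    show w (lab (-x)) (ph lab (l.map Neg.neg)) = fT (w (lab x) (ph lab l))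
    rw [h x List.mem_cons_self, ih (fun y hy => h y (List.mem_cons_of_mem _ hy)), w_fT]

theorem Ph_nu [InvolutiveNeg E] (lab : E → Fin n × Bool) (c : Ch E)
    (h : ∀ l ∈ c.support, ∀ x ∈ l, lab (-x) = fl (lab x)) :
    Ph lab (nu c) = fT (Ph lab c) := by
  have hc : c ∈ Finsupp.supported (ZMod 2) (ZMod 2) {l : List E | ∀ x ∈ l, lab (-x) = fl (lab x)} :=
    fun l hl => h l hl
  rw [Finsupp.supported_eq_span_single] at hc
  have := LinearMap.eqOn_span' (f := Ph lab ∘ₗ nu) (g := fT ∘ₗ Ph lab)
    (s := (fun i => Finsupp.single i (1 : ZMod 2)) '' {l : List E | ∀ x ∈ l, lab (-x) = fl (lab x)}) (by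
      rintro _ ⟨l, hl, rfl⟩
      show Ph lab (nu (Finsupp.single l 1)) = fT (Ph lab (Finsupp.single l 1))
      unfold nu
      rw [Finsupp.lmapDomain_apply, Finsupp.mapDomain_single, Ph_single, Ph_single]
      exact ph_neg lab l hl)
  exact this hc

theorem ph_cases (lab : E → Fin n × Bool) (l : List E) :
    ph lab l = 0 ∨ ∃ s : Finset (Fin n × Bool), s.card = l.length ∧
      (∀ a ∈ s, ∃ x ∈ l, lab x = a) ∧ ph lab l = Finsupp.single s 1 := by
  induction l with
  | nil => exact Or.inr ⟨∅, rfl, by simp, rfl⟩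
  | cons x l ih =>
    show w (lab x) (ph lab l) = 0 ∨ _
    rcases ih with h | ⟨s, hs, hs', h⟩
    · left
      rw [h, map_zero]
    · rw [h, w_single]
      by_cases hx : lab x ∈ s
      · left
        rw [if_pos hx]
      · right
        refine ⟨insert (lab x) s, ?_, ?_, ?_⟩
        · rw [Finset.card_insert_of_notMem hx, hs, List.length_cons]
        · intro a ha
          rcases Finset.mem_insert.1 ha with rfl | ha
          · exact ⟨x, List.mem_cons_self, rfl⟩
          · obtain ⟨y, hy, hya⟩ := hs' a ha
            exact ⟨y, List.mem_cons_of_mem _ hy, hya⟩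
        · show w (lab x) (ph lab l) = _
          rw [h, w_single, if_neg hx]

theorem Ph_mem (lab : E → Fin n × Bool) (c : Ch E) (j : ℕ)
    (hlen : ∀ l ∈ c.support, l.length = j + 1)
    (hcf : ∀ l ∈ c.support, ∀ x ∈ l, ∀ y ∈ l, lab x ≠ fl (lab y)) :
    Ph lab c ∈ G n j := by
  unfold Ph
  rw [Finsupp.linearCombination_apply, Finsupp.sum]
  refine Submodule.sum_mem _ fun l hl => Submodule.smul_mem _ _ ?_
  rcases ph_cases lab l with h | ⟨s, hs, hs', h⟩
  · rw [h]
    exact Submodule.zero_mem _
  · rw [h]
    refine single_mem ⟨?_, ?_⟩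
    · rw [hs, hlen l hl]
    · intro a ha hfa
      obtain ⟨x, hx, hxa⟩ := hs' a ha
      obtain ⟨y, hy, hya⟩ := hs' _ hfa
      exact hcf l hl y hy x hx (by rw [hya, hxa])

theorem G_top (t : T n) (ht : t ∈ G n n) : t = 0 := by
  unfold G at ht
  rw [Finsupp.mem_supported] at ht
  rw [← Finsupp.support_eq_empty, Finset.eq_empty_iff_forall_notMem]
  intro s hs
  obtain ⟨hc, hcf⟩ := ht hs
  have hinj : Set.InjOn (fun a : Fin n × Bool => a.1) (s : Set (Fin n × Bool)) := by
    rintro ⟨i, b⟩ ha ⟨i', b'⟩ ha' (h : i = i')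
    subst h
    by_contra hne
    have hb : b' = !b := by
      cases b <;> cases b' <;> simp_all
    subst hb
    exact hcf _ ha ha'
  have h1 := Finset.card_le_card_of_injOn (s := s) (t := Finset.univ)
    (fun a : Fin n × Bool => a.1) (fun _ _ => Finset.mem_univ _) hinj
  rw [hc, Finset.card_univ, Fintype.card_fin] at h1
  omega

theorem fT_del_zero (t : T n) (ht : t ∈ G n 0) : fT (del t) = del t := by
  unfold G at ht
  rw [Finsupp.supported_eq_span_single] at ht
  have := LinearMap.eqOn_span' (f := fT ∘ₗ del) (g := (del : T n →ₗ[ZMod 2] T n))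
    (s := (fun i => Finsupp.single i (1 : ZMod 2)) '' (Cf 0)) (by
      rintro _ ⟨s, hs, rfl⟩
      show fT (del (Finsupp.single s 1)) = del (Finsupp.single s 1)
      obtain ⟨a, rfl⟩ := Finset.card_eq_one.1 hs.1
      rw [del_single, Finset.sum_singleton, fT_single]
      have : ({a} : Finset (Fin n × Bool)).erase a = ∅ := by simp
      rw [this, Finset.map_empty])
  exact this ht

end U1

open U1 in
/-- module U1 -/
theorem tucker_alg {E : Type} [InvolutiveNeg E] (n : ℕ) (c : ℕ → Ch E) (hc : Cert n c)
    (lab : E → Fin n × Bool)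
    (hodd : ∀ j ≤ n, ∀ l ∈ (c j).support, ∀ x ∈ l, lab (-x) = ((lab x).1, !(lab x).2))
    (hcf : ∀ j ≤ n, ∀ l ∈ (c j).support, ∀ x ∈ l, ∀ y ∈ l, lab x ≠ ((lab y).1, !(lab y).2)) :
    False := by
  have hmem : ∀ j ≤ n, Ph lab (c j) ∈ G n j := fun j hj =>
    Ph_mem lab (c j) j (hc.len j hj) (hcf j hj)
  have hnu : ∀ j ≤ n, Ph lab (nu (c j)) = fT (Ph lab (c j)) := fun j hj =>
    Ph_nu lab (c j) (hodd j hj)
  have key : ∀ k ≤ n, ∃ e ∈ G n (n - k + 1), ∃ e' ∈ G n (n - k),
      Ph lab (c (n - k)) = del e + (e' + fT e') := by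
    intro k
    induction k with
    | zero =>
      intro _
      refine ⟨0, Submodule.zero_mem _, 0, Submodule.zero_mem _, ?_⟩
      rw [Nat.sub_zero, G_top _ (hmem n le_rfl)]
      simp
    | succ k ih =>
      intro hk
      obtain ⟨e, _, e', he', h⟩ := ih (by omega)
      set j := n - (k + 1) with hj
      have hjk : n - k = j + 1 := by omega
      rw [hjk] at h he'
      have h1 : del (Ph lab (c (j + 1))) = Ph lab (c j) + fT (Ph lab (c j)) := by
        rw [← Ph_dd, hc.succ j (by omega), map_add, hnu j (by omega)]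
      rw [h, map_add, del_del, zero_add, map_add, del_fT] at h1
      have hxG : Ph lab (c j) + del e' ∈ G n j :=
        Submodule.add_mem _ (hmem j (by omega)) (del_mem he')
      have hx : Ph lab (c j) + del e' = fT (Ph lab (c j) + del e') := by
        rw [map_add]
        have h2 : (Ph lab (c j) + del e') + (fT (Ph lab (c j)) + fT (del e')) = 0 := by
          calc (Ph lab (c j) + del e') + (fT (Ph lab (c j)) + fT (del e'))
              = (Ph lab (c j) + fT (Ph lab (c j))) + (del e' + fT (del e')) := by abel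
            _ = 0 := by rw [← h1, add_self]
        calc Ph lab (c j) + del e' = (Ph lab (c j) + del e') +
              ((fT (Ph lab (c j)) + fT (del e')) + (fT (Ph lab (c j)) + fT (del e'))) := by
                rw [add_self, add_zero]
          _ = ((Ph lab (c j) + del e') + (fT (Ph lab (c j)) + fT (del e'))) +
              (fT (Ph lab (c j)) + fT (del e')) := by abel
          _ = fT (Ph lab (c j)) + fT (del e') := by rw [h2, zero_add]
      obtain ⟨e'', he'', h3⟩ := split hxG hx
      refine ⟨e', he', e'', he'', ?_⟩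
      calc Ph lab (c j) = Ph lab (c j) + (del e' + del e') := by rw [add_self, add_zero]
        _ = del e' + (Ph lab (c j) + del e') := by abel
        _ = del e' + (e'' + fT e'') := by rw [h3]
  obtain ⟨e, _, e', he', h⟩ := key n le_rfl
  rw [Nat.sub_self] at h he'
  have h1 : del (Ph lab (c 0)) = Finsupp.single ∅ 1 := by
    rw [← Ph_dd, hc.zero, Ph_single]
    rfl
  rw [h, map_add, del_del, zero_add, map_add, del_fT, fT_del_zero _ he', add_self] at h1
  have h2 := DFunLike.congr_fun h1 ∅
  rw [Finsupp.single_eq_same, Finsupp.zero_apply] at h2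
  exact absurd h2 (by decide)

end Pool.Agent.Helper87.RP
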